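import Mathlib

/-!
# Leading coefficients of the Airy moment polynomials

`𝒜 = ℚ[z, a, a⁻¹, b]`, `D` the derivation with `D z = 1`, `D a = b`, `D b = z a`,
`a⁻¹ Dⁿ(a⁻¹) = ∑ c⁽ⁿ⁾_{jk} z^j b^k a^{-(k+2)}`, reduction `R`, numbers `b_{nj}`.  We prove
`∑ b_{2m,m} x^{2m} / (2m)! = x / sinh x`, i.e. `b_{2m,m} = (2 - 2^{2m}) B_{2m}`.
-/

set_option autoImplicit false

namespace Pool.Agent.Results.MP_c1403d_pr.XOverSinh

open Finset

/-! ### The objects of the problem -/

/-- `𝒜 = ℚ[z, a, a⁻¹, b]`: the algebra with basis the monomials `z^j a^l b^k`, `j, k ∈ ℕ`,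
`l ∈ ℤ` (the exponent vector is `(j, l, k)`). -/
abbrev Alg : Type := AddMonoidAlgebra ℚ (ℕ × ℤ × ℕ)

/-- the monomial `z^j a^l b^k` -/
noncomputable def mon (j : ℕ) (l : ℤ) (k : ℕ) : Alg := AddMonoidAlgebra.single (j, l, k) 1

/-- the indeterminate `z` -/
noncomputable def z : Alg := mon 1 0 0

/-- the invertible indeterminate `a` -/
noncomputable def a : Alg := mon 0 1 0

/-- the inverse of `a` -/
noncomputable def ainv : Alg := mon 0 (-1) 0

/-- the indeterminate `b` -/
noncomputable def b : Alg := mon 0 0 1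

/-- `D` is the derivation of `𝒜` with `D z = 1`, `D a = b`, `D b = z a`. -/
structure IsAiry (D : Derivation ℚ Alg Alg) : Prop where
  hz : D z = 1
  ha : D a = b
  hb : D b = z * a

/-- `c n (j, k)` are the coefficients in
`a⁻¹ Dⁿ(a⁻¹) = ∑ c⁽ⁿ⁾_{jk} z^j b^k a^{-(k+2)}`. -/
def IsCoeff (D : Derivation ℚ Alg Alg) (c : ℕ → (ℕ × ℕ →₀ ℚ)) : Prop :=
  ∀ n : ℕ, ainv * (⇑D)^[n] ainv =
    (c n).sum fun jk r => r • (z ^ jk.1 * b ^ jk.2 * ainv ^ (jk.2 + 2))

/-- The reduction `R[j, k, ℓ]`, with values in the space with basis the symbols `[j, 0, ℓ]`;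
the symbol `[j, 0, ℓ]` is `Finsupp.single (j, ℓ) 1`. (In the terms with `j - 1` the coefficient
vanishes for `j = 0`.) -/
noncomputable def R : ℕ → ℕ → ℕ → (ℕ × ℕ →₀ ℚ)
  | j, 0, ℓ => Finsupp.single (j, ℓ) 1
  | j, 1, ℓ => ((j : ℚ) / ((ℓ : ℚ) - 1)) • R (j - 1) 0 (ℓ - 1)
  | j, (k + 2), ℓ => ((j : ℚ) / ((ℓ : ℚ) - 1)) • R (j - 1) (k + 1) (ℓ - 1)
      + (((k : ℚ) + 1) / ((ℓ : ℚ) - 1)) • R (j + 1) k (ℓ - 2)

/-- `∑ c_{jk} R[j, k, k+2]` -/
noncomputable def red (c : ℕ × ℕ →₀ ℚ) : ℕ × ℕ →₀ ℚ :=
  c.sum fun jk r => r • R jk.1 jk.2 (jk.2 + 2)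

/-- the formal power series `sinh x` -/
noncomputable def sinhSeries : PowerSeries ℚ :=
  PowerSeries.mk fun n => if Odd n then 1 / (n.factorial : ℚ) else 0

/-! ### Polynomials in `y` -/

open Polynomial in
/-- `P ↦ (1 - y²) P' - y P` -/
noncomputable def TT (P : ℚ[X]) : ℚ[X] := (1 - X ^ 2) * derivative P - X * P

theorem TT_add (P Q : Polynomial ℚ) : TT (P + Q) = TT P + TT Q := by
  unfold TT; rw [Polynomial.derivative_add]; ring

theorem TT_smul (r : ℚ) (P : Polynomial ℚ) : TT (r • P) = r • TT P := by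
  unfold TT
  rw [Polynomial.derivative_smul, smul_sub, mul_smul_comm, mul_smul_comm]

theorem TT_zero : TT 0 = 0 := by unfold TT; simp

/-- the top coefficients -/
noncomputable def P : ℕ → Polynomial ℚ
  | 0 => 1
  | n + 1 => TT (P n)

/-- parity selector -/
def so (n : ℕ) : ℚ := if Odd n then 1 else 0

theorem so_succ (n : ℕ) : so (n + 1) = 1 - so n := by
  unfold so
  by_cases h : Odd n
  · have : ¬ Odd (n + 1) := by
      rw [Nat.not_odd_iff_even]; exact h.add_one
    simp [h, this]
  · have : Odd (n + 1) := by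
      rw [Nat.not_odd_iff_even] at h; exact h.add_one
    simp [h, this]

/-- coefficient of `sinh x * G` -/
noncomputable def A (n : ℕ) : Polynomial ℚ :=
  ∑ ij ∈ antidiagonal n, n.choose ij.1 • (so ij.1 • P ij.2)

/-- coefficient of `cosh x * G` -/
noncomputable def B (n : ℕ) : Polynomial ℚ :=
  ∑ ij ∈ antidiagonal n, n.choose ij.1 • ((1 - so ij.1) • P ij.2)

theorem TT_sum {ι : Type*} (s : Finset ι) (f : ι → Polynomial ℚ) :
    TT (∑ i ∈ s, f i) = ∑ i ∈ s, TT (f i) := by
  classical
  induction s using Finset.induction_on with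
  | empty => simp [TT_zero]
  | insert i s hi ih => rw [sum_insert hi, sum_insert hi, TT_add, ih]

theorem TT_nsmul (n : ℕ) (P : Polynomial ℚ) : TT (n • P) = n • TT P := by
  have h : ∀ Q : Polynomial ℚ, n • Q = (n : ℚ) • Q := fun Q => by
    rw [Nat.cast_smul_eq_nsmul]
  rw [h, h, TT_smul]

theorem A_succ (n : ℕ) : A (n + 1) = B n + TT (A n) := by
  unfold A B
  rw [Finset.sum_antidiagonal_choose_succ_nsmul (fun i j => so i • P j) n, TT_sum, add_comm]
  congr 1
  · refine sum_congr rfl fun ij hij => ?_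
    rw [Finset.HasAntidiagonal.mem_antidiagonal] at hij
    have h1 : n.choose ij.2 = n.choose ij.1 := by
      rw [← hij, Nat.choose_symm_add]
    rw [h1, so_succ]
  · refine sum_congr rfl fun ij hij => ?_
    rw [Finset.HasAntidiagonal.mem_antidiagonal] at hij
    have h1 : n.choose ij.2 = n.choose ij.1 := by
      rw [← hij, Nat.choose_symm_add]
    rw [TT_nsmul, TT_smul]
    rfl

theorem B_succ (n : ℕ) : B (n + 1) = A n + TT (B n) := by
  unfold A B
  rw [Finset.sum_antidiagonal_choose_succ_nsmul (fun i j => (1 - so i) • P j) n, TT_sum, add_comm]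
  congr 1
  · refine sum_congr rfl fun ij hij => ?_
    rw [Finset.HasAntidiagonal.mem_antidiagonal] at hij
    have h1 : n.choose ij.2 = n.choose ij.1 := by
      rw [← hij, Nat.choose_symm_add]
    rw [h1, so_succ]
    congr 2
    ring
  · refine sum_congr rfl fun ij hij => ?_
    rw [Finset.HasAntidiagonal.mem_antidiagonal] at hij
    have h1 : n.choose ij.2 = n.choose ij.1 := by
      rw [← hij, Nat.choose_symm_add]
    rw [TT_nsmul, TT_smul]
    rfl

open Polynomial in
/-- the coefficients of `log (cosh x + y sinh x)` -/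
noncomputable def L : ℕ → ℚ[X]
  | 0 => 0
  | 1 => X
  | n + 2 => (1 - X ^ 2) * derivative (L (n + 1))

theorem dd : Polynomial.derivative (1 - Polynomial.X ^ 2 : Polynomial ℚ)
    = -(2 * Polynomial.X) := by
  have hC : (Polynomial.C (2 : ℚ)) = 2 := rfl
  rw [Polynomial.derivative_sub, Polynomial.derivative_one, Polynomial.derivative_X_pow]
  push_cast
  rw [hC]
  ring

theorem AB (n : ℕ) : A n = Polynomial.derivative (L n) ∧
    B n = (if n = 0 then 1 else 0) - Polynomial.X * A n := by
  induction n with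
  | zero => simp [A, B, so, L, P]
  | succ n ih =>
    obtain ⟨h1, h2⟩ := ih
    have key : A (n + 1) = (if n = 0 then 1 else 0) +
        Polynomial.derivative ((1 - Polynomial.X ^ 2) * A n) := by
      rw [A_succ, h2, TT, Polynomial.derivative_mul, dd]
      ring
    refine ⟨?_, ?_⟩
    · rw [key]
      rcases n with _ | n
      · rw [h1]; simp [L]
      · rw [h1]
        have : L (n + 1 + 1) = (1 - Polynomial.X ^ 2) * Polynomial.derivative (L (n + 1)) := rfl
        rw [this]
        simp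
    · have hder : Polynomial.derivative (B n) = - A n - Polynomial.X *
          Polynomial.derivative (A n) := by
        rw [h2, Polynomial.derivative_sub, Polynomial.derivative_mul, Polynomial.derivative_X]
        have : Polynomial.derivative (if n = 0 then (1 : Polynomial ℚ) else 0) = 0 := by
          split_ifs <;> simp
        rw [this]; ring
      rw [B_succ, key]
      simp only [if_neg (Nat.succ_ne_zero n)]
      rw [TT, hder, h2, Polynomial.derivative_mul, dd]
      ring

/-- `L n` at `±1` -/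
theorem L_eval (n : ℕ) : (L n).eval 1 - (L n).eval (-1) = if n = 1 then 2 else 0 := by
  rcases n with _ | _ | n
  · simp [L]
  · norm_num [L]
  · rw [L]; simp

/-- half of the integral over `[-1, 1]` -/
noncomputable def E : Polynomial ℚ →ₗ[ℚ] ℚ :=
  Polynomial.lsum fun k => LinearMap.toSpanSingleton ℚ ℚ (if Even k then 1 / ((k : ℚ) + 1) else 0)

theorem E_X_pow (k : ℕ) : E (Polynomial.X ^ k) = if Even k then 1 / ((k : ℚ) + 1) else 0 := by
  unfold E
  rw [Polynomial.lsum_apply, Polynomial.X_pow_eq_monomial, Polynomial.sum_monomial_index]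
  · simp
  · simp

theorem E_derivative (Q : Polynomial ℚ) :
    E (Polynomial.derivative Q) = (Q.eval 1 - Q.eval (-1)) / 2 := by
  induction Q using Polynomial.induction_on' with
  | add p q hp hq =>
    rw [Polynomial.derivative_add, map_add, hp, hq, Polynomial.eval_add, Polynomial.eval_add]
    ring
  | monomial n r =>
    rw [← mul_one r, ← smul_eq_mul, ← Polynomial.smul_monomial,
      ← Polynomial.X_pow_eq_monomial, Polynomial.derivative_smul, map_smul,
      Polynomial.derivative_X_pow, Polynomial.eval_smul, Polynomial.eval_smul]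
    rcases n with _ | n
    · simp
    · have h1 : (Polynomial.C ((n + 1 : ℕ) : ℚ)) * Polynomial.X ^ (n + 1 - 1) =
          ((n + 1 : ℕ) : ℚ) • (Polynomial.X ^ n : Polynomial ℚ) := by
        rw [Polynomial.smul_eq_C_mul, Nat.add_sub_cancel]
      rw [h1, map_smul, E_X_pow]
      rcases Nat.even_or_odd n with h | h
      · have h2 : Odd (n + 1) := h.add_one
        have h0 : ((n : ℚ) + 1) ≠ 0 := by positivity
        simp [h, h2.neg_one_pow]
        field_simp
      · have h2 : Even (n + 1) := h.add_one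
        have h3 : ¬ Even n := Nat.not_even_iff_odd.2 h
        simp [h3, h2.neg_one_pow]

theorem E_A (n : ℕ) : E (A n) = if n = 1 then 1 else 0 := by
  rw [(AB n).1, E_derivative, L_eval]
  split_ifs <;> norm_num

/-- the power series `∑ E(P_n) x^n / n!` -/
noncomputable def F : PowerSeries ℚ := PowerSeries.mk fun n => E (P n) / (n.factorial : ℚ)

theorem sinh_mul_F : sinhSeries * F = PowerSeries.X := by
  ext n
  rw [PowerSeries.coeff_mul, PowerSeries.coeff_X]
  have h1 : ∀ ij ∈ antidiagonal n, PowerSeries.coeff ij.1 sinhSeries *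
      PowerSeries.coeff ij.2 F =
      (1 / (n.factorial : ℚ)) * E (n.choose ij.1 • (so ij.1 • P ij.2)) := by
    intro ij hij
    rw [Finset.HasAntidiagonal.mem_antidiagonal] at hij
    unfold sinhSeries F
    rw [PowerSeries.coeff_mk, PowerSeries.coeff_mk, map_nsmul, map_smul, nsmul_eq_mul,
      smul_eq_mul]
    have h2 : (n.choose ij.1 : ℚ) = n.factorial / (ij.1.factorial * ij.2.factorial) := by
      rw [← hij, Nat.cast_add_choose]
    have f1 : (ij.1.factorial : ℚ) ≠ 0 := by exact_mod_cast ij.1.factorial_ne_zero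
    have f2 : (ij.2.factorial : ℚ) ≠ 0 := by exact_mod_cast ij.2.factorial_ne_zero
    have f3 : (n.factorial : ℚ) ≠ 0 := by exact_mod_cast n.factorial_ne_zero
    rw [h2]
    unfold so
    split_ifs
    · field_simp
    · simp
  rw [sum_congr rfl h1, ← mul_sum, ← map_sum]
  have : E (∑ ij ∈ antidiagonal n, n.choose ij.1 • (so ij.1 • P ij.2)) = E (A n) := rfl
  rw [this, E_A]
  by_cases hn : n = 1
  · subst hn; simp
  · simp [hn]

/-! ### Bernoulli numbers -/

/-- the power series `∑ (2 - 2^n) B_n x^n / n!` -/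
noncomputable def Fb : PowerSeries ℚ :=
  PowerSeries.mk fun n => (2 - 2 ^ n) * bernoulli n / (n.factorial : ℚ)

theorem sinh_mul_Fb : sinhSeries * Fb = PowerSeries.X := by
  set e := PowerSeries.exp ℚ with he
  set Bs := bernoulliPowerSeries ℚ with hBs
  have hB : Bs * (e - 1) = PowerSeries.X := bernoulliPowerSeries_mul_exp_sub_one ℚ
  have hF : Fb = 2 * Bs - PowerSeries.rescale (2 : ℚ) Bs := by
    ext n
    have h2 : (2 : PowerSeries ℚ) * Bs = (2 : ℚ) • Bs := by
      rw [PowerSeries.smul_eq_C_mul, map_ofNat]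
    rw [map_sub, h2, PowerSeries.coeff_smul, PowerSeries.coeff_rescale, hBs,
      bernoulliPowerSeries, PowerSeries.coeff_mk, Fb, PowerSeries.coeff_mk]
    simp
    ring
  have hR : PowerSeries.rescale (2 : ℚ) Bs * (e ^ 2 - 1) = 2 * PowerSeries.X := by
    have h := congrArg (PowerSeries.rescale (2 : ℚ)) hB
    rw [map_mul, map_sub, map_one, PowerSeries.rescale_X, map_ofNat] at h
    have h3 : e ^ 2 = PowerSeries.rescale (2 : ℚ) e := by
      have := PowerSeries.exp_pow_eq_rescale_exp (A := ℚ) 2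
      push_cast at this
      exact this
    rw [h3]; exact h
  have hs : 2 * sinhSeries * e = e ^ 2 - 1 := by
    have h4 : e * PowerSeries.evalNegHom e = 1 := PowerSeries.exp_mul_exp_neg_eq_one
    have h5 : 2 * sinhSeries = e - PowerSeries.evalNegHom e := by
      ext n
      have h2 : (2 : PowerSeries ℚ) * sinhSeries = (2 : ℚ) • sinhSeries := by
        rw [PowerSeries.smul_eq_C_mul, map_ofNat]
      rw [h2, PowerSeries.coeff_smul, map_sub, PowerSeries.evalNegHom,
        PowerSeries.coeff_rescale, he, PowerSeries.coeff_exp, sinhSeries, PowerSeries.coeff_mk]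
      split_ifs with h
      · rw [h.neg_one_pow]; simp; ring
      · rw [Nat.not_odd_iff_even] at h
        rw [h.neg_one_pow]; simp
    rw [h5, sub_mul, mul_comm (PowerSeries.evalNegHom e), h4]; ring
  have he0 : e ≠ 0 := by
    intro h
    have : PowerSeries.evalNegHom e * e = 1 := by
      rw [mul_comm]; exact PowerSeries.exp_mul_exp_neg_eq_one
    rw [h, mul_zero] at this
    exact zero_ne_one this
  have h20 : (2 : PowerSeries ℚ) ≠ 0 := by
    intro h
    have := congrArg (PowerSeries.coeff 0) h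
    rw [← map_ofNat (PowerSeries.C (R := ℚ)) 2] at this
    simp at this
  have key : (2 * e) * (sinhSeries * Fb) = (2 * e) * PowerSeries.X := by
    have : (e ^ 2 - 1) * Fb = 2 * e * PowerSeries.X := by
      rw [hF, mul_sub]
      have e1 : (e ^ 2 - 1) * (2 * Bs) = 2 * (e + 1) * (Bs * (e - 1)) := by ring
      have e2 : (e ^ 2 - 1) * (PowerSeries.rescale (2 : ℚ)) Bs =
        (PowerSeries.rescale (2 : ℚ)) Bs * (e ^ 2 - 1) := by ring
      rw [e1, e2, hB, hR]; ring
    rw [← this, ← hs]; ring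
  exact mul_left_cancel₀ (mul_ne_zero h20 he0) key

theorem F_eq : F = Fb := by
  have h0 : sinhSeries ≠ 0 := by
    intro h
    have := sinh_mul_F
    rw [h, zero_mul] at this
    exact PowerSeries.X_ne_zero this.symm
  exact mul_left_cancel₀ h0 (sinh_mul_F.trans sinh_mul_Fb.symm)

theorem E_P (n : ℕ) : E (P n) = (2 - 2 ^ n) * bernoulli n := by
  have h := congrArg (PowerSeries.coeff n) F_eq
  rw [F, Fb, PowerSeries.coeff_mk, PowerSeries.coeff_mk] at h
  have f3 : (n.factorial : ℚ) ≠ 0 := by exact_mod_cast n.factorial_ne_zero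
  field_simp at h
  exact h

/-! ### The algebra -/

/-- exponent space: `(j, k)` stands for `z^j b^k a^{-(k+1)}` -/
abbrev V : Type := ℕ × ℕ →₀ ℚ

/-- the basis vector -/
noncomputable def ee (j k : ℕ) : V := Finsupp.single (j, k) 1

/-- the derivation on `V` -/
noncomputable def Tv : V →ₗ[ℚ] V :=
  Finsupp.linearCombination ℚ fun jk : ℕ × ℕ =>
    (jk.1 : ℚ) • ee (jk.1 - 1) jk.2 + (jk.2 : ℚ) • ee (jk.1 + 1) (jk.2 - 1)
      - ((jk.2 : ℚ) + 1) • ee jk.1 (jk.2 + 1)

theorem Tv_ee (j k : ℕ) : Tv (ee j k) =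
    (j : ℚ) • ee (j - 1) k + (k : ℚ) • ee (j + 1) (k - 1) - ((k : ℚ) + 1) • ee j (k + 1) := by
  unfold Tv
  conv_lhs => rw [ee]
  rw [Finsupp.linearCombination_single, one_smul]

/-- the elements of weight at most `n` -/
noncomputable def W (n : ℕ) : Submodule ℚ V :=
  Submodule.span ℚ {v | ∃ j k, 2 * j + k ≤ n ∧ v = ee j k}

theorem ee_mem {n j k : ℕ} (h : 2 * j + k ≤ n) : ee j k ∈ W n :=
  Submodule.subset_span ⟨j, k, h, rfl⟩

/-- the top part -/
noncomputable def Top (n : ℕ) : V →ₗ[ℚ] Polynomial ℚ :=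
  Finsupp.linearCombination ℚ fun jk : ℕ × ℕ =>
    if 2 * jk.1 + jk.2 = n then Polynomial.X ^ jk.2 else 0

theorem Top_ee (n j k : ℕ) : Top n (ee j k) = if 2 * j + k = n then Polynomial.X ^ k else 0 := by
  unfold Top ee
  rw [Finsupp.linearCombination_single, one_smul]

theorem Tv_mem {n : ℕ} {v : V} (hv : v ∈ W n) : Tv v ∈ W (n + 1) := by
  refine Submodule.span_induction ?_ ?_ ?_ ?_ hv
  · rintro _ ⟨j, k, h, rfl⟩
    rw [Tv_ee]
    refine Submodule.sub_mem _ (Submodule.add_mem _ ?_ ?_) ?_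
    · exact Submodule.smul_mem _ _ (ee_mem (by omega))
    · rcases k with _ | k
      · simp
      · exact Submodule.smul_mem _ _ (ee_mem (by omega))
    · exact Submodule.smul_mem _ _ (ee_mem (by omega))
  · rw [map_zero]; exact Submodule.zero_mem _
  · intro x y _ _ hx hy; rw [map_add]; exact Submodule.add_mem _ hx hy
  · intro r x _ hx; rw [map_smul]; exact Submodule.smul_mem _ _ hx

theorem Top_Tv {n : ℕ} {v : V} (hv : v ∈ W n) : Top (n + 1) (Tv v) = TT (Top n v) := by
  refine Submodule.span_induction (p := fun v _ => Top (n + 1) (Tv v) = TT (Top n v))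
    ?_ ?_ ?_ ?_ hv
  · rintro _ ⟨j, k, h, rfl⟩
    rw [Tv_ee, map_sub, map_add, map_smul, map_smul, map_smul, Top_ee, Top_ee, Top_ee, Top_ee]
    have h1 : ¬ (2 * (j - 1) + k = n + 1) := by omega
    rw [if_neg h1, smul_zero, zero_add]
    by_cases hn : 2 * j + k = n
    · rw [if_pos hn, if_pos (by omega : 2 * j + (k + 1) = n + 1), TT]
      rcases k with _ | k
      · simp
      · rw [if_pos (by omega : 2 * (j + 1) + (k + 1 - 1) = n + 1),
          Polynomial.derivative_X_pow, Polynomial.smul_eq_C_mul, Polynomial.smul_eq_C_mul]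
        push_cast
        simp only [map_add, map_one]
        ring
    · rw [if_neg hn, if_neg (by omega : ¬ 2 * j + (k + 1) = n + 1)]
      rcases k with _ | k
      · simp [TT]
      · rw [if_neg (by omega : ¬ 2 * (j + 1) + (k + 1 - 1) = n + 1)]
        simp [TT]
  · rw [map_zero, map_zero, map_zero, TT_zero]
  · intro x y _ _ hx hy
    rw [map_add, map_add, map_add, TT_add, hx, hy]
  · intro r x _ hx
    rw [map_smul, map_smul, map_smul, TT_smul, hx]

/-- the coefficient vectors -/
noncomputable def dv : ℕ → V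
  | 0 => ee 0 0
  | n + 1 => Tv (dv n)

theorem dv_mem (n : ℕ) : dv n ∈ W n := by
  induction n with
  | zero => exact ee_mem (by omega)
  | succ n ih => exact Tv_mem ih

theorem Top_dv (n : ℕ) : Top n (dv n) = P n := by
  induction n with
  | zero => rw [dv, Top_ee]; simp [P]
  | succ n ih => rw [dv, Top_Tv (dv_mem n), ih]; rfl

/-! ### The reduction -/

theorem R_low (m : ℕ) : ∀ k j, 2 * j + k < 2 * m → R j k (k + 2) (m, 2) = 0
  | 0, j, h => by
    rw [R, Finsupp.single_apply, if_neg]
    intro h'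
    have := congrArg Prod.fst h'
    simp only at this
    omega
  | 1, j, h => by
    rw [R, R, Finsupp.smul_apply, Finsupp.single_apply, if_neg, smul_zero]
    intro h'
    have := congrArg Prod.fst h'
    simp only at this
    omega
  | k + 2, j, h => by
    rw [R, Finsupp.add_apply, Finsupp.smul_apply, Finsupp.smul_apply]
    have e1 : k + 2 + 2 - 1 = k + 1 + 2 := by omega
    have e2 : k + 2 + 2 - 2 = k + 2 := by omega
    rw [e1, e2, R_low m (k + 1) (j - 1) (by omega), R_low m k (j + 1) (by omega)]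
    simp

theorem R_top (m : ℕ) : ∀ k j, 2 * j + k = 2 * m →
    R j k (k + 2) (m, 2) = if Even k then 1 / ((k : ℚ) + 1) else 0
  | 0, j, h => by
    have : j = m := by omega
    subst this
    rw [R]; simp
  | 1, j, h => by omega
  | k + 2, j, h => by
    rw [R, Finsupp.add_apply, Finsupp.smul_apply, Finsupp.smul_apply]
    have e1 : k + 2 + 2 - 1 = k + 1 + 2 := by omega
    have e2 : k + 2 + 2 - 2 = k + 2 := by omega
    rw [e1, e2, R_top m k (j + 1) (by omega)]
    have h1 : ((j : ℚ) / (((k + 2 + 2 : ℕ) : ℚ) - 1)) •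
        R (j - 1) (k + 1) (k + 1 + 2) (m, 2) = 0 := by
      rcases j with _ | j
      · simp
      · rw [R_low m (k + 1) (j + 1 - 1) (by omega)]; simp
    rw [h1, zero_add]
    have hk : Even k := by
      rw [Nat.even_iff]; omega
    have hk2 : Even (k + 2) := by
      rw [Nat.even_iff] at hk ⊢; omega
    rw [if_pos hk, if_pos hk2, smul_eq_mul]
    push_cast
    have c1 : (k : ℚ) + 1 ≠ 0 := by positivity
    have c2 : (k : ℚ) + 2 + 2 - 1 ≠ 0 := by
      have : (0 : ℚ) ≤ k := by positivity
      linarith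
    have c3 : (k : ℚ) + 2 + 1 ≠ 0 := by positivity
    field_simp
    ring

/-- the reduction as a linear map -/
noncomputable def redL : V →ₗ[ℚ] V :=
  Finsupp.linearCombination ℚ fun jk : ℕ × ℕ => R jk.1 jk.2 (jk.2 + 2)

theorem redL_apply (v : V) : redL v = red v := by
  rw [redL, Finsupp.linearCombination_apply]; rfl

theorem red_top {m : ℕ} {v : V} (hv : v ∈ W (2 * m)) :
    red v (m, 2) = E (Top (2 * m) v) := by
  rw [← redL_apply]
  refine Submodule.span_induction (p := fun v _ => redL v (m, 2) = E (Top (2 * m) v))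
    ?_ ?_ ?_ ?_ hv
  · rintro _ ⟨j, k, h, rfl⟩
    rw [Top_ee]
    conv_lhs => unfold redL ee
    rw [Finsupp.linearCombination_single, one_smul]
    split_ifs with h'
    · rw [E_X_pow, R_top m k j h']
    · rw [map_zero, R_low m k j (by omega)]
  · rw [map_zero, map_zero, map_zero]; rfl
  · intro x y _ _ hx hy
    rw [map_add, Finsupp.add_apply, map_add, map_add, hx, hy]
  · intro r x _ hx
    rw [map_smul, Finsupp.smul_apply, map_smul, map_smul, hx]

theorem red_dv (m : ℕ) : red (dv (2 * m)) (m, 2) = (2 - 2 ^ (2 * m)) * bernoulli (2 * m) := by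
  rw [red_top (dv_mem _), Top_dv, E_P]

/-! ### The derivation -/

theorem mon_mul (j j' : ℕ) (l l' : ℤ) (k k' : ℕ) :
    mon j l k * mon j' l' k' = mon (j + j') (l + l') (k + k') := by
  unfold mon
  rw [AddMonoidAlgebra.single_mul_single]
  simp

theorem a_ainv : a * ainv = 1 := by
  unfold a ainv
  rw [mon_mul]
  rfl

theorem mon_eq (j k n : ℕ) : z ^ j * b ^ k * ainv ^ n = mon j (-(n : ℤ)) k := by
  have h1 : ∀ j, z ^ j = mon j 0 0 := by
    intro j
    induction j with
    | zero => rfl
    | succ j ih => rw [pow_succ, ih, z, mon_mul]; simp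
  have h2 : ∀ j, b ^ j = mon 0 0 j := by
    intro j
    induction j with
    | zero => rfl
    | succ j ih => rw [pow_succ, ih, b, mon_mul]; simp
  have h3 : ∀ j : ℕ, ainv ^ j = mon 0 (-(j : ℤ)) 0 := by
    intro j
    induction j with
    | zero => rfl
    | succ j ih =>
      rw [pow_succ, ih, ainv, mon_mul]
      congr 1
      push_cast; ring
  rw [h1, h2, h3, mon_mul, mon_mul]
  simp

section der

variable {D : Derivation ℚ Alg Alg} (hD : IsAiry D)

include hD

theorem D_ainv : D ainv = -(b * ainv ^ 2) := by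
  have h := congrArg D a_ainv
  rw [D.leibniz, D.map_one_eq_zero, hD.ha, smul_eq_mul, smul_eq_mul] at h
  have h1 : D ainv = ainv * (a * D ainv) := by
    rw [← mul_assoc, mul_comm ainv a, a_ainv, one_mul]
  have h2 : a * D ainv = - (ainv * b) := eq_neg_of_add_eq_zero_left h
  rw [h1, h2]; ring

/-- evaluation of a coefficient vector -/
noncomputable def ev : V →ₗ[ℚ] Alg :=
  Finsupp.linearCombination ℚ fun jk : ℕ × ℕ => z ^ jk.1 * b ^ jk.2 * ainv ^ (jk.2 + 1)

omit hD in
theorem ev_ee (j k : ℕ) : ev (ee j k) = z ^ j * b ^ k * ainv ^ (k + 1) := by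
  unfold ev ee
  rw [Finsupp.linearCombination_single, one_smul]

theorem D_ev_ee (j k : ℕ) : D (ev (ee j k)) = ev (Tv (ee j k)) := by
  rw [Tv_ee, map_sub, map_add, map_smul, map_smul, map_smul, ev_ee, ev_ee, ev_ee, ev_ee,
    D.leibniz, D.leibniz, D.leibniz_pow, D.leibniz_pow, D.leibniz_pow, hD.hz, hD.hb,
    D_ainv hD]
  have ha : ainv * a = 1 := by rw [mul_comm]; exact a_ainv
  simp only [smul_eq_mul, nsmul_eq_mul]
  simp only [Algebra.smul_def, map_natCast, map_add, map_one]
  rcases j with _ | j <;> rcases k with _ | k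
  · simp
  · simp only [Nat.add_sub_cancel, Nat.cast_zero, zero_mul]
    push_cast
    have : ainv ^ (k + 1 + 1) * (z * a) = ainv ^ (k + 1) * z := by
      rw [pow_succ]
      calc ainv ^ (k + 1) * ainv * (z * a) = ainv ^ (k + 1) * z * (ainv * a) := by ring
        _ = _ := by rw [ha, mul_one]
    linear_combination ((k : Alg) + 1) * b ^ k * this
  · simp; ring
  · simp only [Nat.add_sub_cancel]
    push_cast
    have : ainv ^ (k + 1 + 1) * (z * a) = ainv ^ (k + 1) * z := by
      rw [pow_succ]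
      calc ainv ^ (k + 1) * ainv * (z * a) = ainv ^ (k + 1) * z * (ainv * a) := by ring
        _ = _ := by rw [ha, mul_one]
    linear_combination ((k : Alg) + 1) * z ^ (j + 1) * b ^ k * this

theorem D_ev (v : V) : D (ev v) = ev (Tv v) := by
  have h : (D : Alg →ₗ[ℚ] Alg) ∘ₗ ev = ev ∘ₗ Tv := by
    apply Finsupp.lhom_ext'
    intro jk
    apply LinearMap.ext_ring
    exact D_ev_ee hD jk.1 jk.2
  exact LinearMap.congr_fun h v

theorem D_iter (n : ℕ) : (⇑D)^[n] ainv = ev (dv n) := by
  induction n with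
  | zero => simp [dv, ev_ee]
  | succ n ih => rw [Function.iterate_succ_apply', ih, D_ev hD]; rfl

end der

/-! ### Existence of the derivation -/

/-- the derivation as a linear map -/
noncomputable def Dlin : Alg →ₗ[ℚ] Alg :=
  (Finsupp.linearCombination ℚ fun m : ℕ × ℤ × ℕ =>
    (m.1 : ℚ) • mon (m.1 - 1) m.2.1 m.2.2 + (m.2.1 : ℚ) • mon m.1 (m.2.1 - 1) (m.2.2 + 1)
      + (m.2.2 : ℚ) • mon (m.1 + 1) (m.2.1 + 1) (m.2.2 - 1)) ∘ₗ
    (AddMonoidAlgebra.coeffLinearEquiv ℚ).toLinearMap

theorem Dlin_mon (j : ℕ) (l : ℤ) (k : ℕ) : Dlin (mon j l k) =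
    (j : ℚ) • mon (j - 1) l k + (l : ℚ) • mon j (l - 1) (k + 1)
      + (k : ℚ) • mon (j + 1) (l + 1) (k - 1) := by
  have h : (AddMonoidAlgebra.coeffLinearEquiv ℚ).toLinearMap (mon j l k) =
      Finsupp.single (j, l, k) (1 : ℚ) := rfl
  rw [Dlin, LinearMap.comp_apply, h, Finsupp.linearCombination_single, one_smul]

theorem smul_mon1 (n i : ℕ) (l : ℤ) (k : ℕ) :
    (n : ℚ) • mon (i + (n - 1)) l k = (n : ℚ) • mon (i + n - 1) l k := by
  rcases n with _ | n
  · simp
  · rfl

theorem smul_mon3 (n i : ℕ) (l : ℤ) (k : ℕ) :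
    (n : ℚ) • mon i l (k + (n - 1)) = (n : ℚ) • mon i l (k + n - 1) := by
  rcases n with _ | n
  · simp
  · rfl

theorem Dlin_mon_mul (j j' : ℕ) (l l' : ℤ) (k k' : ℕ) :
    Dlin (mon j l k * mon j' l' k') =
      mon j l k * Dlin (mon j' l' k') + mon j' l' k' * Dlin (mon j l k) := by
  rw [mon_mul, Dlin_mon, Dlin_mon, Dlin_mon]
  simp only [mul_add, mul_smul_comm, mon_mul]
  rw [smul_mon1 j', smul_mon1 j, smul_mon3 k', smul_mon3 k]
  have e1 : j' + j = j + j' := add_comm _ _
  have e2 : l' + l = l + l' := add_comm _ _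
  have e3 : k' + k = k + k' := add_comm _ _
  have e4 : l + (l' - 1) = l + l' - 1 := by ring
  have e5 : l' + (l - 1) = l + l' - 1 := by ring
  have e6 : l + (l' + 1) = l + l' + 1 := by ring
  have e7 : l' + (l + 1) = l + l' + 1 := by ring
  have e8 : k + (k' + 1) = k + k' + 1 := by ring
  have e9 : k' + (k + 1) = k + k' + 1 := by ring
  have e10 : j + (j' + 1) = j + j' + 1 := by ring
  have e11 : j' + (j + 1) = j + j' + 1 := by ring
  rw [e1, e2, e3, e4, e5, e6, e7, e8, e9, e10, e11]
  push_cast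
  module

theorem single_eq (m : ℕ × ℤ × ℕ) (r : ℚ) :
    (AddMonoidAlgebra.single m r : Alg) = r • mon m.1 m.2.1 m.2.2 := by
  rw [mon, AddMonoidAlgebra.smul_single, smul_eq_mul, mul_one]

theorem Dlin_mul (x y : Alg) : Dlin (x * y) = x • Dlin y + y • Dlin x := by
  simp only [smul_eq_mul]
  induction x using AddMonoidAlgebra.induction_linear with
  | zero => simp
  | add x x' hx hx' => rw [add_mul, map_add, hx, hx', map_add]; ring
  | single m r =>
    induction y using AddMonoidAlgebra.induction_linear with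
    | zero => simp
    | add y y' hy hy' => rw [mul_add, map_add, hy, hy', map_add]; ring
    | single m' r' =>
      rw [single_eq, single_eq, smul_mul_smul_comm, map_smul, map_smul, map_smul, Dlin_mon_mul,
        smul_mul_smul_comm, smul_mul_smul_comm, smul_add, mul_comm r' r]

/-- the derivation of the problem -/
noncomputable def DD : Derivation ℚ Alg Alg := Derivation.mk' Dlin Dlin_mul

theorem isAiry_DD : IsAiry DD where
  hz := by
    change Dlin (mon 1 0 0) = 1
    rw [Dlin_mon]
    simp only [Nat.cast_one, one_smul, Int.cast_zero, zero_smul, Nat.cast_zero, add_zero]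
    rfl
  ha := by
    change Dlin (mon 0 1 0) = mon 0 0 1
    rw [Dlin_mon]
    simp only [Nat.cast_zero, zero_smul, Int.cast_one, one_smul, add_zero, zero_add]
    rfl
  hb := by
    change Dlin (mon 0 0 1) = mon 1 0 0 * mon 0 1 0
    rw [Dlin_mon, mon_mul]
    simp only [Nat.cast_zero, zero_smul, Int.cast_zero, Nat.cast_one, one_smul, zero_add]

/-! ### Uniqueness of the coefficients -/

/-- the expansion map -/
noncomputable def ev2 : V →ₗ[ℚ] Alg :=
  Finsupp.linearCombination ℚ fun jk : ℕ × ℕ => z ^ jk.1 * b ^ jk.2 * ainv ^ (jk.2 + 2)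

theorem ev2_apply (v : V) :
    ev2 v = v.sum fun jk r => r • (z ^ jk.1 * b ^ jk.2 * ainv ^ (jk.2 + 2)) := by
  rw [ev2, Finsupp.linearCombination_apply]

theorem ev2_eq (v : V) : ev2 v = ainv * ev v := by
  induction v using Finsupp.induction_linear with
  | zero => simp
  | add x y hx hy => rw [map_add, map_add, hx, hy, mul_add]
  | single jk r =>
    rw [ev2, ev, Finsupp.linearCombination_single, Finsupp.linearCombination_single,
      mul_smul_comm]
    congr 1
    ring

theorem ev2_coeff (v : V) (j k : ℕ) :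
    (ev2 v).coeff (j, -((k + 2 : ℕ) : ℤ), k) = v (j, k) := by
  induction v using Finsupp.induction_linear with
  | zero => simp
  | add x y hx hy =>
    rw [map_add, AddMonoidAlgebra.coeff_add, Finsupp.add_apply, hx, hy, Finsupp.add_apply]
  | single jk r =>
    obtain ⟨j', k'⟩ := jk
    rw [ev2, Finsupp.linearCombination_single, mon_eq, mon, AddMonoidAlgebra.smul_single,
      AddMonoidAlgebra.coeff_single, Finsupp.single_apply, Finsupp.single_apply]
    simp only [smul_eq_mul, mul_one]
    by_cases h : (j', k') = (j, k)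
    · rw [if_pos h, if_pos]
      obtain ⟨rfl, rfl⟩ := Prod.mk.inj h
      rfl
    · rw [if_neg h, if_neg]
      intro h'
      apply h
      obtain ⟨h1, h2⟩ := Prod.mk.inj h'
      rw [h1, (Prod.mk.inj h2).2]

theorem coeff_eq {D : Derivation ℚ Alg Alg} (hD : IsAiry D) {c : ℕ → (ℕ × ℕ →₀ ℚ)}
    (hc : IsCoeff D c) (n : ℕ) : c n = dv n := by
  have h := hc n
  rw [← ev2_apply, D_iter hD, ← ev2_eq] at h
  ext jk
  rw [← ev2_coeff (c n), ← ev2_coeff (dv n), h]

theorem R_supp : ∀ k j (p : ℕ × ℕ), p.2 ≠ 2 → R j k (k + 2) p = 0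
  | 0, j, p, h => by
    rw [R, Finsupp.single_apply, if_neg]
    intro h'
    exact h (congrArg Prod.snd h').symm
  | 1, j, p, h => by
    rw [R, R, Finsupp.smul_apply, Finsupp.single_apply, if_neg, smul_zero]
    intro h'
    exact h (congrArg Prod.snd h').symm
  | k + 2, j, p, h => by
    rw [R, Finsupp.add_apply, Finsupp.smul_apply, Finsupp.smul_apply]
    have e1 : k + 2 + 2 - 1 = k + 1 + 2 := by omega
    have e2 : k + 2 + 2 - 2 = k + 2 := by omega
    rw [e1, e2, R_supp (k + 1) (j - 1) p h, R_supp k (j + 1) p h]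
    simp

theorem red_supp (v : V) (p : ℕ × ℕ) (h : p.2 ≠ 2) : red v p = 0 := by
  rw [← redL_apply]
  induction v using Finsupp.induction_linear with
  | zero => simp
  | add x y hx hy => rw [map_add, Finsupp.add_apply, hx, hy, add_zero]
  | single jk r =>
    rw [redL, Finsupp.linearCombination_single, Finsupp.smul_apply, R_supp _ _ _ h, smul_zero]

/-- **Leading coefficients of the Airy moment polynomials.**  The derivation `D` of
`𝒜 = ℚ[z, a, a⁻¹, b]` with `D z = 1`, `D a = b`, `D b = z a` and the coefficients `c⁽ⁿ⁾_{jk}`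
exist; for all such `D` and `c` the reduction `∑ c⁽ⁿ⁾_{jk} R[j,k,k+2]` is supported on the symbols
`[j, 0, 2]`, whose coefficients are the numbers `b_{nj}`, and
`∑ₘ b_{2m,m} x^{2m} / (2m)! = x / sinh x`, equivalently `b_{2m,m} = (2 - 2^{2m}) B_{2m}`. -/
theorem result :
    (∃ (D : Derivation ℚ Alg Alg) (c : ℕ → (ℕ × ℕ →₀ ℚ)), IsAiry D ∧ IsCoeff D c) ∧
    ∀ (D : Derivation ℚ Alg Alg) (c : ℕ → (ℕ × ℕ →₀ ℚ)), IsAiry D → IsCoeff D c →
      (∀ (n : ℕ) (p : ℕ × ℕ), p.2 ≠ 2 → red (c n) p = 0) ∧
      sinhSeries * PowerSeries.mk (fun n =>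
        if Even n then red (c n) (n / 2, 2) / (n.factorial : ℚ) else 0) = PowerSeries.X ∧
      ∀ m : ℕ, red (c (2 * m)) (m, 2) = (2 - 2 ^ (2 * m)) * bernoulli (2 * m) := by
  refine ⟨⟨DD, dv, isAiry_DD, ?_⟩, ?_⟩
  · intro n
    rw [D_iter isAiry_DD, ← ev2_eq, ev2_apply]
  · intro D c hD hc
    refine ⟨fun n p h => red_supp _ _ h, ?_, ?_⟩
    · have h : (PowerSeries.mk (fun n =>
          if Even n then red (c n) (n / 2, 2) / (n.factorial : ℚ) else 0)) = Fb := by
        ext n
        rw [Fb, PowerSeries.coeff_mk, PowerSeries.coeff_mk]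
        split_ifs with hn
        · obtain ⟨m, rfl⟩ := hn
          have e1 : m + m = 2 * m := by ring
          have e2 : 2 * m / 2 = m := by omega
          rw [e1, e2, coeff_eq hD hc, red_dv]
        · rw [Nat.not_even_iff_odd] at hn
          by_cases h1 : n = 1
          · subst h1; norm_num
          · rw [bernoulli_eq_zero_of_odd hn (by
              have := hn.pos
              omega), mul_zero, zero_div]
      rw [h]; exact sinh_mul_Fb
    · intro m
      rw [coeff_eq hD hc, red_dv]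

end Pool.Agent.Results.MP_c1403d_pr.XOverSinh
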